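import Pool.Agent.H242.LD.Stm

set_option autoImplicit false

/-!
# Horizontal segments of all heights near the stable set contain nodes (helper977 for helper242, LD-START)
-/

namespace Pool.Agent.H977.LD

open Real Set Metric Filter Topology
open Pool.Agent.TH705.SM (T2 S Si)
open Pool.Agent.H242.TM Pool.Agent.H242.LD

/-- the path of `open_fwd`, explicitly -/
theorem fwd_path {a : ℝ} (ha : 5 ≤ |a|) {A : Set T2} (hA : IsOpen A)
    (h : (A ∩ Ws a).Nonempty) : ∃ (n₀ N : ℕ) (z : ℝ × ℝ) (ρ s' t' u : ℝ), 0 < ρ ∧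
      (∀ s ∈ Icc 0 ρ, pr (z.1 + s, z.2) ∈ (S a)^[n₀] '' A) ∧ 0 ≤ s' ∧ t' ≤ ρ ∧
      Cross (fun s => ((F a)^[N] (z.1 + s, z.2)).1) s' t' u (u + 31 / 200) ∧
      ∀ τ ∈ Icc s' t', ∀ σ ∈ Icc s' t',
        |((F a)^[N] (z.1 + τ, z.2)).2 - ((F a)^[N] (z.1 + σ, z.2)).2| ≤ 31 / 200 := by
  obtain ⟨z₀, hzA, hz⟩ := h
  obtain ⟨p, rfl⟩ := pr_surj z₀
  have hz' : Tendsto (fun n : ℕ => (S a)^[n] (pr p)) atTop
    (𝓝 ((0 : UnitAddCircle), (0 : UnitAddCircle))) := hz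
  set L := 3 + 2 * π * |a| with hL
  have hL1 : 1 ≤ L := by
    have : 0 ≤ 2 * π * |a| := by positivity
    linarith
  set ε := 1 / (100 * L) with hε
  have hε0 : 0 < ε := by positivity
  have hLε : L * ε = 1 / 100 := by rw [hε]; field_simp
  have hε1 : ε ≤ 1 / 100 := by nlinarith
  have hex : ∃ n₀, ∀ n ≥ n₀, ‖((S a)^[n] (pr p)).1‖ < ε ∧ ‖((S a)^[n] (pr p)).2‖ < ε := by
    have h1 := (continuous_fst.tendsto _).comp hz'
    have h2 := (continuous_snd.tendsto _).comp hz'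
    obtain ⟨n₁, hn₁⟩ := Metric.tendsto_atTop.1 h1 ε hε0
    obtain ⟨n₂, hn₂⟩ := Metric.tendsto_atTop.1 h2 ε hε0
    refine ⟨max n₁ n₂, fun n hn => ?_⟩
    have h3 := hn₁ n ((le_max_left _ _).trans hn)
    have h4 := hn₂ n ((le_max_right _ _).trans hn)
    simp only [Function.comp, dist_zero_right] at h3 h4
    exact ⟨h3, h4⟩
  obtain ⟨n₀, hn₀⟩ := hex
  set p₁ := (F a)^[n₀] p with hp₁
  have hprp₁ : pr p₁ = (S a)^[n₀] (pr p) := pr_iter a n₀ p
  set z : ℝ × ℝ := p₁ - ((round p₁.1 : ℝ), (round p₁.2 : ℝ)) with hzdef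
  have hprz : pr z = (S a)^[n₀] (pr p) := by rw [hzdef, pr_sub_int, hprp₁]
  have hz1 : |z.1| < ε ∧ |z.2| < ε := by
    have h1 := hn₀ n₀ le_rfl
    rw [← hprp₁] at h1
    have e1 : (pr p₁).1 = (p₁.1 : UnitAddCircle) := rfl
    have e2 : (pr p₁).2 = (p₁.2 : UnitAddCircle) := rfl
    rw [e1, e2, UnitAddCircle.norm_eq, UnitAddCircle.norm_eq] at h1
    exact h1
  have claim : ∀ n : ℕ, |((F a)^[n] z).1| < ε ∧ |((F a)^[n] z).2| < ε := by
    intro n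
    induction n with
    | zero => exact hz1
    | succ n ih =>
      constructor
      · apply near_zero
        · have h1 := (hn₀ (n + 1 + n₀) (by omega)).1
          rw [Function.iterate_add_apply, ← hprz, ← pr_iter] at h1
          exact h1
        · rw [iter_fst']
          have h1 := phi_abs_le a ((F a)^[n] z).1
          have h2 := abs_sub (phi a ((F a)^[n] z).1) ((F a)^[n] z).2
          have h3 : (2 + 2 * π * |a|) * |((F a)^[n] z).1| ≤ (2 + 2 * π * |a|) * ε :=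
            mul_le_mul_of_nonneg_left ih.1.le (by positivity)
          have h4 : (2 + 2 * π * |a|) * ε + ε = L * ε := by rw [hL]; ring
          linarith [ih.2]
      · rw [iter_snd]
        exact ih.1
  -- the open set
  have hopen : IsOpen (pr ⁻¹' ((S a)^[n₀] '' A)) := (isOpen_image a n₀ hA).preimage pr_cont
  have hmem : z ∈ pr ⁻¹' ((S a)^[n₀] '' A) := by
    rw [mem_preimage, hprz]
    exact mem_image_of_mem _ hzA
  have hγ₀ : Continuous (fun s : ℝ => ((z.1 + s, z.2) : ℝ × ℝ)) := by fun_prop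
  have hopen2 : IsOpen ((fun s : ℝ => ((z.1 + s, z.2) : ℝ × ℝ)) ⁻¹'
      (pr ⁻¹' ((S a)^[n₀] '' A))) := hopen.preimage hγ₀
  obtain ⟨ρ₀, hρ₀, hball⟩ := Metric.isOpen_iff.1 hopen2 0 (by
    rw [mem_preimage, add_zero]
    exact hmem)
  set ρ := min (ρ₀ / 2) (31 / 200) with hρ
  have hρ0 : 0 < ρ := by rw [hρ]; positivity
  have hρ1 : ρ ≤ 31 / 200 := min_le_right _ _
  have hin : ∀ s ∈ Icc 0 ρ, pr (z.1 + s, z.2) ∈ (S a)^[n₀] '' A := by
    intro s hs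
    apply hball
    rw [mem_ball, dist_zero_right, Real.norm_eq_abs, abs_of_nonneg hs.1]
    have := min_le_left (ρ₀ / 2) (31 / 200 : ℝ)
    linarith [hs.2]
  have hc : ∀ j : ℕ, Continuous (fun s => ((F a)^[j] (z.1 + s, z.2)).1) := fun j =>
    (((F_cont a).iterate j).comp hγ₀).fst
  have hx0 : ∀ j : ℕ, |((F a)^[j] (z.1 + 0, z.2)).1| < ε := fun j => by
    rw [add_zero]; exact (claim j).1
  have hbd : ∀ j : ℕ, ∀ s : ℝ, |((F a)^[j] (z.1 + s, z.2)).1 - ((F a)^[j] (z.1 + 0, z.2)).1| ≤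
      31 / 200 → |((F a)^[j] (z.1 + s, z.2)).1| ≤ 1 / 6 := by
    intro j s h1
    have h2 := abs_sub_abs_le_abs_sub ((F a)^[j] (z.1 + s, z.2)).1
      ((F a)^[j] (z.1 + 0, z.2)).1
    linarith [hx0 j]
  have h0mem : (0:ℝ) ∈ Icc 0 ρ := ⟨le_rfl, hρ0.le⟩
  have hρmem : ρ ∈ Icc 0 ρ := ⟨hρ0.le, le_rfl⟩
  have hP : ∃ n, ∃ s ∈ Icc 0 ρ, 31 / 200 <
      |((F a)^[n] (z.1 + s, z.2)).1 - ((F a)^[n] (z.1 + 0, z.2)).1| := by
    by_contra hcon
    push Not at hcon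
    have hb : ∀ j, ∀ s ∈ Icc 0 ρ, |((F a)^[j] (z.1 + s, z.2)).1| ≤ 1 / 6 :=
      fun j s hs => hbd j s (hcon j s hs)
    have h1 : ∀ n : ℕ, 3 ^ n * ρ ≤
        |((F a)^[n] (z.1 + ρ, z.2)).1 - ((F a)^[n] (z.1 + 0, z.2)).1| := by
      intro n
      induction n with
      | zero =>
        have e1 : ((F a)^[0] (z.1 + ρ, z.2)).1 = z.1 + ρ := rfl
        have e2 : ((F a)^[0] (z.1 + 0, z.2)).1 = z.1 + 0 := rfl
        rw [e1, e2, pow_zero, one_mul, show z.1 + ρ - (z.1 + 0) = ρ by ring]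
        exact le_abs_self _
      | succ n ih =>
        have h2 := expand (a := a) (by linarith) (z := z) (ρ := ρ) (N := n + 1)
          (fun j _ s hs => hb j s hs) n (by omega) ρ hρmem 0 h0mem
        rw [pow_succ]
        linarith
    obtain ⟨n, hn⟩ := pow_unbounded_of_one_lt ((31 / 200) / ρ) (show (1:ℝ) < 3 by norm_num)
    rw [div_lt_iff₀ hρ0] at hn
    linarith [h1 n, hcon n ρ hρmem]
  classical
  obtain ⟨s₁, hs₁, hs₁'⟩ := Nat.find_spec hP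
  have hmin := fun m (hm : m < Nat.find hP) => Nat.find_min hP hm
  set N := Nat.find hP with hN
  have hN0 : N ≠ 0 := by
    intro h0
    rw [h0] at hs₁'
    have e1 : ((F a)^[0] (z.1 + s₁, z.2)).1 = z.1 + s₁ := rfl
    have e2 : ((F a)^[0] (z.1 + 0, z.2)).1 = z.1 + 0 := rfl
    rw [e1, e2, show z.1 + s₁ - (z.1 + 0) = s₁ by ring, abs_of_nonneg hs₁.1] at hs₁'
    linarith [hs₁.2]
  obtain ⟨M, hM⟩ := Nat.exists_eq_succ_of_ne_zero hN0
  have hbN : ∀ j < N, ∀ s ∈ Icc 0 ρ, |((F a)^[j] (z.1 + s, z.2)).1| ≤ 1 / 6 := by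
    intro j hj s hs
    apply hbd
    have := hmin j hj
    push Not at this
    exact this s hs
  have hexp := expand (a := a) (by linarith) hbN M (by omega)
  rw [show M + 1 = N by omega] at hexp
  have hcross : ∃ s' t' u, s' ∈ Icc 0 ρ ∧ t' ∈ Icc 0 ρ ∧
      Cross (fun s => ((F a)^[N] (z.1 + s, z.2)).1) s' t' u (u + 31 / 200) := by
    have h1 : ((F a)^[N] (z.1 + 0, z.2)).1 + 31 / 200 ≤ ((F a)^[N] (z.1 + s₁, z.2)).1 ∨
        ((F a)^[N] (z.1 + s₁, z.2)).1 ≤ ((F a)^[N] (z.1 + 0, z.2)).1 - 31 / 200 := by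
      rcases abs_cases (((F a)^[N] (z.1 + s₁, z.2)).1 - ((F a)^[N] (z.1 + 0, z.2)).1) with
        ⟨h2, _⟩ | ⟨h2, _⟩
      · left; rw [h2] at hs₁'; linarith
      · right; rw [h2] at hs₁'; linarith
    rcases h1 with h1 | h1
    · obtain ⟨s', t', h2, h3, h4⟩ := cross_sub (hc N) (u := 0) (v := s₁)
        (lo := ((F a)^[N] (z.1 + 0, z.2)).1) (hi := ((F a)^[N] (z.1 + 0, z.2)).1 + 31 / 200)
        le_rfl h1 (by linarith)
      rw [min_eq_left hs₁.1] at h2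
      rw [max_eq_right hs₁.1] at h3
      exact ⟨s', t', _, ⟨h2, h4.1.trans (h3.trans hs₁.2)⟩, ⟨h2.trans h4.1, h3.trans hs₁.2⟩, h4⟩
    · obtain ⟨s', t', h2, h3, h4⟩ := cross_sub (hc N) (u := s₁) (v := 0)
        (lo := ((F a)^[N] (z.1 + 0, z.2)).1 - 31 / 200)
        (hi := ((F a)^[N] (z.1 + 0, z.2)).1 - 31 / 200 + 31 / 200)
        h1 (by linarith) (by linarith)
      rw [min_eq_right hs₁.1] at h2
      rw [max_eq_left hs₁.1] at h3
      exact ⟨s', t', _, ⟨h2, h4.1.trans (h3.trans hs₁.2)⟩, ⟨h2.trans h4.1, h3.trans hs₁.2⟩, h4⟩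
  obtain ⟨s', t', u, hs', ht', hC⟩ := hcross
  have hsub : ∀ τ ∈ Icc s' t', τ ∈ Icc 0 ρ := fun τ hτ => ⟨hs'.1.trans hτ.1, hτ.2.trans ht'.2⟩
  refine ⟨n₀, N, z, ρ, s', t', u, hρ0, hin, hs'.1, ht'.2, hC, ?_⟩
  intro τ hτ σ hσ
  have h1 := hexp τ (hsub τ hτ) σ (hsub σ hσ)
  have h2 := abs_sub_le_of_mem (hC.2.2 τ hτ) (hC.2.2 σ hσ)
  have e1 : ((F a)^[N] (z.1 + τ, z.2)).2 = ((F a)^[M] (z.1 + τ, z.2)).1 := by
    rw [show N = M + 1 by omega, iter_snd]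
  have e2 : ((F a)^[N] (z.1 + σ, z.2)).2 = ((F a)^[M] (z.1 + σ, z.2)).1 := by
    rw [show N = M + 1 by omega, iter_snd]
  rw [e1, e2]
  linarith [abs_nonneg (((F a)^[M] (z.1 + τ, z.2)).1 - ((F a)^[M] (z.1 + σ, z.2)).1)]

theorem tube {K : Set ℝ} (hK : IsCompact K) (y : ℝ) {U : Set (ℝ × ℝ)} (hU : IsOpen U)
    (h : ∀ τ ∈ K, (τ, y) ∈ U) :
    ∃ δ > 0, ∀ y', |y' - y| ≤ δ → ∀ τ ∈ K, (τ, y') ∈ U := by
  obtain ⟨u, v, hu, hv, hKu, hyv, huv⟩ := generalized_tube_lemma hK (isCompact_singleton (x := y)) hU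
    (by
      rintro ⟨τ, y''⟩ ⟨h1, h2⟩
      have h3 : y'' = y := h2
      rw [h3]
      exact h τ h1)
  obtain ⟨ε, hε, hball⟩ := Metric.isOpen_iff.1 hv y (hyv rfl)
  refine ⟨ε / 2, by positivity, fun y' hy' τ hτ => huv ⟨hKu hτ, hball ?_⟩⟩
  rw [mem_ball, Real.dist_eq]
  linarith

theorem ld_START (hSEG : S_SEG) : S_START := by
  intro a ω A ha hω0 hω1 hA hne
  obtain ⟨n₀, N, z, ρ, s', t', u, hρ, hin, hs', ht', hC, hh⟩ := fwd_path ha hA hne
  have hγ : Continuous (hor z.1 z.2) := by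
    show Continuous fun τ : ℝ => (z.1 + τ, z.2)
    fun_prop
  obtain ⟨m, s₁, t₁, u₁, hs₁, ht₁, hC₁, hh₁⟩ := hSEG a (hor z.1 z.2) N s' t' u ha hγ hC hh
  -- the two open sets
  have hG : Continuous fun q : ℝ × ℝ => (F a)^[m] (z.1 + q.1, q.2) :=
    ((F_cont a).iterate m).comp (by fun_prop)
  have hG0 : Continuous fun q : ℝ × ℝ => (F a)^[m] (z.1 + q.1, z.2) :=
    ((F_cont a).iterate m).comp (by fun_prop)
  have hη : 0 < min ω (1 / 4) := lt_min hω0 (by norm_num)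
  obtain ⟨δ₁, hδ₁, hd₁⟩ := tube (K := Icc s₁ t₁) isCompact_Icc z.2
    (U := {q : ℝ × ℝ | dist ((F a)^[m] (z.1 + q.1, q.2)) ((F a)^[m] (z.1 + q.1, z.2)) < min ω (1 / 4)})
    (isOpen_lt (hG.dist hG0) continuous_const) (fun τ _ => by
      rw [mem_setOf_eq, dist_self]
      exact hη)
  obtain ⟨δ₂, hδ₂, hd₂⟩ := tube (K := Icc 0 ρ) isCompact_Icc z.2
    (U := {q : ℝ × ℝ | pr (z.1 + q.1, q.2) ∈ (S a)^[n₀] '' A})
    ((isOpen_image a n₀ hA).preimage (pr_cont.comp (by fun_prop))) (fun τ hτ => hin τ hτ)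
  refine ⟨n₀, m, z.1, z.2, min δ₁ δ₂, ρ, lt_min hδ₁ hδ₂, hρ, ?_, ?_⟩
  · intro y' hy' τ hτ
    have h1 : |y' - z.2| ≤ δ₂ := by
      rw [abs_le]
      have := min_le_right δ₁ δ₂
      constructor
      · linarith [hy'.1]
      · linarith [hy'.2]
    exact hd₂ y' h1 τ hτ
  · intro y' hy'
    have h1 : |y' - z.2| ≤ δ₁ := by
      rw [abs_le]
      have := min_le_left δ₁ δ₂
      constructor
      · linarith [hy'.1]
      · linarith [hy'.2]
    have hd : ∀ τ ∈ Icc s₁ t₁,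
        |((F a)^[m] (hor z.1 y' τ)).1 - ((F a)^[m] (hor z.1 z.2 τ)).1| < min ω (1 / 4) ∧
        |((F a)^[m] (hor z.1 y' τ)).2 - ((F a)^[m] (hor z.1 z.2 τ)).2| < min ω (1 / 4) := by
      intro τ hτ
      have h2 : dist ((F a)^[m] (z.1 + τ, y')) ((F a)^[m] (z.1 + τ, z.2)) < min ω (1 / 4) :=
        hd₁ y' h1 τ hτ
      rw [Prod.dist_eq, max_lt_iff, Real.dist_eq, Real.dist_eq] at h2
      exact h2
    have hmω := min_le_left ω (1 / 4 : ℝ)
    have hm4 := min_le_right ω (1 / 4 : ℝ)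
    have hf : Continuous fun τ => ((F a)^[m] (hor z.1 y' τ)).1 := by
      have h2 : Continuous (hor z.1 y') := by
        show Continuous fun τ : ℝ => (z.1 + τ, y')
        fun_prop
      exact (((F_cont a).iterate m).comp h2).fst
    obtain ⟨k, hk⟩ : ∃ k : ℤ, k = ⌈2 * u₁ + 1 / 2⌉ := ⟨_, rfl⟩
    have hk1 : 2 * u₁ + 1 / 2 ≤ (k : ℝ) := by
      rw [hk]
      exact Int.le_ceil _
    have hk2 : (k : ℝ) < 2 * u₁ + 1 / 2 + 1 := by
      rw [hk]
      exact Int.ceil_lt_add_one _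
    have hst₁ : s₁ ≤ t₁ := hC₁.1
    have hmem_s : s₁ ∈ Icc s₁ t₁ := ⟨le_rfl, hst₁⟩
    have hmem_t : t₁ ∈ Icc s₁ t₁ := ⟨hst₁, le_rfl⟩
    have hds := abs_lt.1 (hd s₁ hmem_s).1
    have hdt := abs_lt.1 (hd t₁ hmem_t).1
    have hcross : ∃ s t, s₁ ≤ s ∧ t ≤ t₁ ∧
        Cross (fun τ => ((F a)^[m] (hor z.1 y' τ)).1) s t (lo ω k) (hi ω k) := by
      have hlh : lo ω k ≤ hi ω k := by
        unfold lo hi
        linarith
      rcases hC₁.2.1 with ⟨h3, h4⟩ | ⟨h3, h4⟩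
      · obtain ⟨s, t, h5, h6, h7⟩ := cross_sub hf (u := s₁) (v := t₁) (lo := lo ω k) (hi := hi ω k)
          (by
            unfold lo
            have h3' : ((F a)^[m] (hor z.1 z.2 s₁)).1 = u₁ := h3
            linarith [hds.2])
          (by
            unfold hi
            have h4' : ((F a)^[m] (hor z.1 z.2 t₁)).1 = u₁ + 1 := h4
            linarith [hdt.1]) hlh
        rw [min_eq_left hst₁] at h5
        rw [max_eq_right hst₁] at h6
        exact ⟨s, t, h5, h6, h7⟩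
      · obtain ⟨s, t, h5, h6, h7⟩ := cross_sub hf (u := t₁) (v := s₁) (lo := lo ω k) (hi := hi ω k)
          (by
            unfold lo
            have h4' : ((F a)^[m] (hor z.1 z.2 t₁)).1 = u₁ := h4
            linarith [hdt.2])
          (by
            unfold hi
            have h3' : ((F a)^[m] (hor z.1 z.2 s₁)).1 = u₁ + 1 := h3
            linarith [hds.1]) hlh
        rw [min_eq_right hst₁] at h5
        rw [max_eq_left hst₁] at h6
        exact ⟨s, t, h5, h6, h7⟩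
    obtain ⟨s, t, hs, ht, hCr⟩ := hcross
    refine ⟨s, t, k, by linarith, by linarith, hCr, ?_⟩
    intro τ hτ σ hσ
    have hτ' : τ ∈ Icc s₁ t₁ := ⟨hs.trans hτ.1, hτ.2.trans ht⟩
    have hσ' : σ ∈ Icc s₁ t₁ := ⟨hs.trans hσ.1, hσ.2.trans ht⟩
    have h2 := abs_lt.1 (hd τ hτ').2
    have h3 := abs_lt.1 (hd σ hσ').2
    have h4 := abs_le.1 (hh₁ τ hτ' σ hσ')
    rw [abs_le]
    constructor
    · linarith [h2.1, h3.2, h4.1]
    · linarith [h2.2, h3.1, h4.2]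

end Pool.Agent.H977.LD
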